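import Pool.Agent.Helper60.GM.Defs
import Pool.Agent.Helper5.RT.E1b
import Pool.Agent.Helper33.RT.K
import Pool.Agent.Helper58.RT.B2
import Pool.Agent.Helper70.RT.K12
import Pool.Agent.Helper77.RT.Num

/-!
# Project GM, block E1b: the arcs of type II, case A
-/

open MeasureTheory Real Set Filter Topology

set_option autoImplicit false

namespace Pool.Agent.Helper60.GM

open Pool.Agent.Helper22.AE
open Pool.Agent.Helper92.GC (dt tp Tq uu tt arc dd sqa m6)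
open Pool.Agent.Helper92.DT (m12 IsMul12)
open Pool.Agent.Helper60.LT (Fr Tf xf yf df vf fr ac co Cut BB PP)
open Pool.Agent.Helper60.QL (nm Cone)
open Pool.Agent.Helper60.RT (R2 cn FR sp Pr prs ctr lf2 ln2 hol_5b ctr_card5b gcd_low5b cut_mono5b
  cn_pos5b arc_sub5b arc_fl5b arc_near5b ctr_sub5b ctr_le5b near5b exJ5b log5b cn_cut sub_near
  count_II num_bds)

theorem SG_le5g (F : Fam) (s₀ l B X : ℝ) (G : Finset (ℤ × ℤ)) (N : ℕ) (P : Finset ℕ) :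
    SG F s₀ l B X G N P ≤ (P.card : ENNReal) ^ (5 : ℕ) *
      (∑ r ∈ P, RN F s₀ l B X (arc 0 G N r) + P.card) := by
  unfold SG
  refine (hol_5b P _).trans (le_of_eq ?_)
  rw [Finset.sum_add_distrib, Finset.sum_const, nsmul_eq_mul, mul_one]

theorem RN_empty5g (F : Fam) (s₀ l B X : ℝ) : RN F s₀ l B X ∅ = 0 := by
  unfold RN mf m12 tp
  simp

theorem arcsub5g {F : Fam} {s₀ l B X : ℝ}
    (hfib : ∀ (S : Finset (ℤ × ℤ)) (g : ℤ × ℤ → ℕ) (P : Finset ℕ), (∀ k ∈ S, g k ∈ P) →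
      RN F s₀ l B X S ≤ ENNReal.ofReal ((P.card : ℝ) ^ 11) *
        ∑ i ∈ P, RN F s₀ l B X (S.filter (fun k => g k = i)))
    {N n J : ℕ} {G : Finset (ℤ × ℤ)} (hG : G ⊆ cn N) (hJ : 1 ≤ J) (r : ℕ) :
    RN F s₀ l B X (arc 0 G n r) ≤ ENNReal.ofReal ((J : ℝ) ^ 11) *
      ∑ j ∈ Finset.range J, RN F s₀ l B X (arc 0 (arc 0 G n r) (J * n) (J * r + j)) := by
  have h := hfib (arc 0 G n r) (fun k => ⌊((J * n : ℕ) : ℝ) * ((tt 0 k + 6) / 12)⌋₊)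
    (Finset.Ico (J * r) (J * r + J)) ?_
  · rw [Nat.card_Ico, Nat.add_sub_cancel_left, Finset.sum_Ico_eq_sum_range,
      Nat.add_sub_cancel_left] at h
    exact h
  · intro k hk
    obtain ⟨h0, h1, h2⟩ := arc_fl5b hG hk
    have hJ' : (0 : ℝ) < J := by exact_mod_cast hJ
    set x := (tt 0 k + 6) / 12 with hx
    have hx1 : 0 ≤ ((J * n : ℕ) : ℝ) * x := by positivity
    rw [Finset.mem_Ico]
    constructor
    · apply Nat.le_floor
      push_cast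
      nlinarith only [h1]
    · rw [Nat.floor_lt hx1]
      push_cast
      nlinarith only [hJ', h2]

theorem fin5g {F : Fam} {s₀ l B X : ℝ} {G : Finset (ℤ × ℤ)} {n : ℕ} {P : Finset ℕ} {V : ℝ} (hV : 0 ≤ V)
    (h : ∑ r ∈ P, RN F s₀ l B X (arc 0 G n r) ≤ ENNReal.ofReal V) :
    SG F s₀ l B X G n P ≤ ENNReal.ofReal ((P.card : ℝ) ^ 5 * V + (P.card : ℝ) ^ 6) := by
  refine (SG_le5g F s₀ l B X G n P).trans ?_
  have hc : (P.card : ENNReal) = ENNReal.ofReal (P.card : ℝ) := (ENNReal.ofReal_natCast _).symm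
  have hc0 : (0 : ℝ) ≤ P.card := Nat.cast_nonneg _
  calc (P.card : ENNReal) ^ 5 * (∑ r ∈ P, RN F s₀ l B X (arc 0 G n r) + P.card)
      ≤ (P.card : ENNReal) ^ 5 * (ENNReal.ofReal V + P.card) := by gcongr
    _ = ENNReal.ofReal ((P.card : ℝ) ^ 5 * V + (P.card : ℝ) ^ 6) := by
        rw [hc, ← ENNReal.ofReal_pow hc0, ← ENNReal.ofReal_add hV hc0,
          ← ENNReal.ofReal_mul (by positivity)]
        congr 1
        ring

theorem sect5g {F : Fam} {s₀ l η B C₃ : ℝ} (hC₃ : 1 ≤ C₃)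
    (hsec : ∀ (X : ℝ) (N : ℕ) (W D τ : ℝ) (S : Finset (ℤ × ℤ)), 1 ≤ X → 1 ≤ N →
      (N : ℝ) ≤ X → 0 ≤ W → W ≤ 2 → 1 ≤ D → S ⊆ cn N → (∀ k ∈ S, |tt 0 k - τ| ≤ W) →
      (∀ k ∈ S, D * (Int.gcd k.1 k.2 : ℝ) ≤ k.1) →
        RN F s₀ l B X S ≤ ENNReal.ofReal (C₃ * X ^ (1 + η) * (N ^ 2 * W + N / D) ^ 7 *
          (N ^ 2 * W + (N / D) ^ 2) ^ 2 * (1 + N ^ 3 / X)))
    {X n2 D τ : ℝ} {N : ℕ} {S : Finset (ℤ × ℤ)} (hX : 1 ≤ X) (hN : 1 ≤ N) (hNX : (N : ℝ) ≤ X)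
    (hD : 1 ≤ D) (hDn : 24 * D ^ 2 = n2) (hS : S ⊆ cn N) (hnear : ∀ k ∈ S, |tt 0 k - τ| ≤ 6 / n2)
    (hfar : ∀ n : ℤ × ℤ, Pr n → (n.1 : ℝ) ≤ D → 24 / n2 < |sp n - τ|) :
    RN F s₀ l B X S ≤ ENNReal.ofReal (C₃ * X ^ (1 + η) * (54 * (N ^ 2 / n2)) ^ 9 * (1 + N ^ 3 / X)) := by
  rcases S.eq_empty_or_nonempty with rfl | ⟨k₀, hk₀⟩
  · rw [RN_empty5g]
    exact zero_le
  have hD0 : 0 < D := by linarith only [hD]
  have hn2 : 24 ≤ n2 := by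
    have := one_le_pow₀ hD (n := 2)
    linarith
  have hn20 : 0 < n2 := by linarith
  have hX0 : 0 < X := by linarith
  have hNr : (1 : ℝ) ≤ N := by exact_mod_cast hN
  have hww : 6 / n2 ≤ 24 / n2 := by
    rw [div_le_div_iff_of_pos_right hn20]
    norm_num
  have hgcd : ∀ k ∈ S, D * (Int.gcd k.1 k.2 : ℝ) ≤ k.1 := fun k hk =>
    gcd_low5b (cn_pos5b (hS hk)).1 hww hfar (hnear k hk)
  have hDN : D ≤ 2 * N := by
    obtain ⟨h1, h2, _⟩ := cn_pos5b (hS hk₀)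
    have h3 : (1 : ℝ) ≤ (Int.gcd k₀.1 k₀.2 : ℝ) := by
      exact_mod_cast Int.gcd_pos_of_ne_zero_left _ h1.ne'
    have h4 := hgcd k₀ hk₀
    nlinarith only [h2, h4, h3]
  refine (hsec X N (6 / n2) D τ S hX hN hNX (by positivity) ?_ hD hS hnear hgcd).trans ?_
  · rw [div_le_iff₀ hn20]
    linarith
  refine ENNReal.ofReal_le_ofReal ?_
  have h1 : (N : ℝ) / D ≤ 48 * ((N : ℝ) ^ 2 / n2) := by
    have e1 : 48 * ((N : ℝ) ^ 2 / n2) = 2 * N ^ 2 / D ^ 2 := by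
      rw [← hDn]
      field_simp
      ring
    rw [e1, div_le_div_iff₀ hD0 (by positivity)]
    have h5 : (N : ℝ) * D * D ≤ N * D * (2 * N) := mul_le_mul_of_nonneg_left hDN (by positivity)
    nlinarith only [h5]
  have h2 : ((N : ℝ) / D) ^ 2 = 24 * ((N : ℝ) ^ 2 / n2) := by
    rw [← hDn]
    field_simp
  have h3 : (N : ℝ) ^ 2 * (6 / n2) = 6 * ((N : ℝ) ^ 2 / n2) := by ring
  have h4 : 0 ≤ (N : ℝ) ^ 2 / n2 := by positivity
  have h5 : (N : ℝ) ^ 2 * (6 / n2) + N / D ≤ 54 * (N ^ 2 / n2) := by linarith only [h1, h3]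
  have h6 : (N : ℝ) ^ 2 * (6 / n2) + (N / D) ^ 2 ≤ 54 * (N ^ 2 / n2) := by linarith only [h2, h3, h4]
  calc C₃ * X ^ (1 + η) * ((N : ℝ) ^ 2 * (6 / n2) + N / D) ^ 7 *
        ((N : ℝ) ^ 2 * (6 / n2) + (N / D) ^ 2) ^ 2 * (1 + N ^ 3 / X)
      ≤ C₃ * X ^ (1 + η) * (54 * (N ^ 2 / n2)) ^ 7 * (54 * (N ^ 2 / n2)) ^ 2 *
        (1 + N ^ 3 / X) := by (clear * - hN hn2 hD h5 hC₃ hX h6; gcongr)
    _ = _ := by ring

/-! ### The moment through the states -/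

theorem betaG5 {ε ε₀ B₀ B L : ℝ} {M : ℕ} (hM : 2 ≤ M) (hB₀ : 1 ≤ B₀) (hL : 1 ≤ L)
    (hr2 : ∀ β : ℝ, 1 ≤ β → ∃ C : ℝ, 1 ≤ C ∧ ∀ (F : Fam), F.Ok B₀ →
      ∀ (ι : Type) (P : Finset ι) (I : ι → Finset (ℤ × ℤ)) (n : ι → ℤ × ℤ) (X U σ s₀ l : ℝ)
        (N : ℕ), 1 ≤ X → 1 ≤ N → (N : ℝ) ≤ X → 1 ≤ U → 0 < σ → σ ≤ β → In s₀ l →
        (∀ p ∈ P, Pr (n p) ∧ U ≤ β * (n p).1 ∧ ((n p).1 : ℝ) ≤ β * U ∧ |sp (n p)| ≤ 3 ∧
          ∀ s ∈ Icc (s₀ - l) (s₀ + l), σ ≤ |F.J s (sp (n p))|) →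
        (∀ p ∈ P, Cut β (I p) ∧ I p ⊆ cn N ∧ ∀ k ∈ I p, ((n p).1 : ℝ) ^ 2 * |tt 0 k - sp (n p)| ≤ 2 ∧
          |tt 0 k - sp (n p)| ^ 4 * (X * N) ≤ β) →
        (∀ v : ℤ × ℤ, ((P.filter (fun p => n p = v)).card : ℝ) ≤ β) →
          ∑ p ∈ P, RN F s₀ l B X (I p) ≤
            ENNReal.ofReal (C * (X * N) ^ ε * (X / (σ * l)) * U ^ (-(10 : ℝ)) * BB N (X * N)))
    (hfib : ∀ (F : Fam), F.Ok B₀ → ∀ (s₀ l X : ℝ) (S : Finset (ℤ × ℤ)) (g : ℤ × ℤ → ℕ)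
      (P : Finset ℕ), (∀ k ∈ S, g k ∈ P) →
      RN F s₀ l B X S ≤ ENNReal.ofReal ((P.card : ℝ) ^ 11) *
        ∑ i ∈ P, RN F s₀ l B X (S.filter (fun k => g k = i))) :
    ∃ C : ℝ, 1 ≤ C ∧ ∀ (F : Fam), F.Ok B₀ → ∀ (X σ s₀ l D Q : ℝ) (N m₀ m₂ r₀ : ℕ) (P : Finset ℕ),
      ParG F M ε₀ L X σ s₀ l N m₀ m₂ r₀ → X * N < (M : ℝ) ^ (4 * m₂ + 4) → 1 ≤ D →
      24 * D ^ 2 = (M : ℝ) ^ m₂ → D ≤ 2 * Q →
      P ⊆ Finset.range (M ^ m₂) → (N : ℝ) ≤ X → 2 * B₀ * (L + 6156) ≤ (X * N) ^ ε₀ →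
      (∀ r ∈ P, (∀ n : ℤ × ℤ, Pr n → (n.1 : ℝ) ≤ D →
          24 / (M ^ m₂ : ℕ) < |sp n - ctr (M ^ m₂) r|) ∧
        ∃ n : ℤ × ℤ, Pr n ∧ (n.1 : ℝ) ≤ D ∧ Q * ((n.1 : ℝ) * |sp n - ctr (M ^ m₂) r|) ≤ 1 ∧
          1 ≤ 2 * Q * ((n.1 : ℝ) * |sp n - ctr (M ^ m₂) r|)) →
        ∑ r ∈ P, RN F s₀ l B X (arc 0 (arc 0 (cn N) (M ^ m₀) r₀) (M ^ m₂) r) ≤
          ENNReal.ofReal (C * (X * N) ^ ε * X * ((M : ℝ) ^ m₀) ^ 2 * Q ^ 12 /
            ((M : ℝ) ^ m₂) ^ 11 * BB N (X * N)) := by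
  have hM' : (2 : ℝ) ≤ M := by exact_mod_cast hM
  set β : ℝ := 24 ^ 12 + 7000 + B₀ + (12288 * M) ^ 4 + 4097 * M with hβ
  have hM4 : 0 ≤ (12288 * (M : ℝ)) ^ 4 := by positivity
  have hβ1 : 1 ≤ β := by
    rw [hβ]
    linarith
  obtain ⟨C, hC, h⟩ := hr2 β hβ1
  refine ⟨2 * (384 * M) ^ 11 * C, ?_, ?_⟩
  · have h1 : (1 : ℝ) ≤ (384 * (M : ℝ)) ^ 11 := one_le_pow₀ (by linarith)
    have h2 : (1 : ℝ) ≤ (384 * (M : ℝ)) ^ 11 * C := one_le_mul_of_one_le_of_one_le h1 hC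
    rw [mul_assoc]
    linarith
  intro F hF X σ s₀ l D Q N m₀ m₂ r₀ P hP hk2 hD hDn hDQ hPr hNX hK hcl
  have hX := hP.X1
  have hN := hP.N1
  have hNr : (1 : ℝ) ≤ N := by exact_mod_cast hN
  have hX0 : 0 < X := by linarith
  have hK1 : 1 ≤ X * N := one_le_mul_of_one_le_of_one_le hX hNr
  have hσ := hP.σ0
  have hσm := hP.σm
  have hin := hP.inn
  have hl0 : 0 < l := hin.1
  have hl1 := hP.l1
  have hl2 := hP.l2
  have hmm := hP.m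
  have hgd := hP.gd
  have hn21 : (M : ℝ) ^ m₀ ≤ (M : ℝ) ^ m₂ := pow_le_pow_right₀ (by linarith only [hM']) hmm
  have hn1 : (1 : ℝ) ≤ (M : ℝ) ^ m₀ := one_le_pow₀ (by linarith only [hM'])
  have hk3 : X * N < (M : ℝ) ^ 4 * ((M : ℝ) ^ m₂) ^ 4 := by
    have e1 : (M : ℝ) ^ (4 * m₂ + 4) = (M : ℝ) ^ 4 * ((M : ℝ) ^ m₂) ^ 4 := by
      rw [pow_add, mul_comm 4 m₂, pow_mul, mul_comm]
    rwa [e1] at hk2
  have hcN : ((M ^ m₂ : ℕ) : ℝ) = (M : ℝ) ^ m₂ := by push_cast; rfl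
  have hone : 1 ≤ M ^ m₂ := Nat.one_le_pow _ _ (by omega)
  have hone0 : 1 ≤ M ^ m₀ := Nat.one_le_pow _ _ (by omega)
  have hcl' : ∀ r ∈ P, (∀ n : ℤ × ℤ, Pr n → (n.1 : ℝ) ≤ D →
          24 / (M : ℝ) ^ m₂ < |sp n - ctr (M ^ m₂) r|) ∧
        ∃ n : ℤ × ℤ, Pr n ∧ (n.1 : ℝ) ≤ D ∧ Q * ((n.1 : ℝ) * |sp n - ctr (M ^ m₂) r|) ≤ 1 ∧
          1 ≤ 2 * Q * ((n.1 : ℝ) * |sp n - ctr (M ^ m₂) r|) := by
    rw [← hcN]
    exact hcl
  set n2 : ℝ := (M : ℝ) ^ m₂ with hn2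
  set n1 : ℝ := (M : ℝ) ^ m₀ with hn1'
  have hn24 : 24 ≤ n2 := by
    have := one_le_pow₀ hD (n := 2)
    linarith only [hDn, this]
  have hn20 : 0 < n2 := by linarith only [hn24]
  have hQ : 1 ≤ 2 * Q := hD.trans hDQ
  have hQ0 : 0 < Q := by linarith
  have hn2Q : n2 ≤ 96 * Q ^ 2 := by
    have h1 := pow_le_pow_left₀ (by linarith : (0 : ℝ) ≤ D) hDQ 2
    have h2 : (2 * Q) ^ 2 = 4 * Q ^ 2 := by ring
    linarith only [hDn, h1]
  obtain ⟨J, hJ1, hJa, hJb⟩ := exJ5b hM hn2Q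
  rw [← hn2] at hJa hJb
  have hJ0 : (0 : ℝ) < J := by exact_mod_cast hJ1
  set G := arc 0 (cn N) (M ^ m₀) r₀ with hG
  have hGc : G ⊆ cn N := arc_sub5b _ _ _
  have hSc : ∀ r, arc 0 G (M ^ m₂) r ⊆ cn N := fun r => (arc_sub5b _ _ _).trans hGc
  set I : ℕ × ℕ → Finset (ℤ × ℤ) :=
    fun p => arc 0 (arc 0 G (M ^ m₂) p.1) (J * M ^ m₂) (J * p.1 + p.2) with hI
  have hIc : ∀ p, I p ⊆ cn N := fun p => (arc_sub5b _ _ _).trans (hSc _)
  have hJn : 1 ≤ J * M ^ m₂ := Nat.one_le_iff_ne_zero.2 (by positivity)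
  have hJnr : ((J * M ^ m₂ : ℕ) : ℝ) = J * n2 := by push_cast; rfl
  have hT : 12312 * B₀ ≤ σ * n1 := by
    have h1 : 0 ≤ B₀ * L := mul_nonneg (by linarith only [hB₀]) (by linarith only [hL])
    linarith only [hK, hσm, h1]
  have hσn : 1 / σ ≤ n1 := by
    rw [div_le_iff₀ hσ]
    linarith only [hB₀, hT]
  have hln : 1 / l ≤ n1 := by
    rw [div_le_iff₀ hl0]
    linarith only [hl1]
  have hs₀ : s₀ ∈ Icc (-1 : ℝ) 2 := ⟨by linarith only [hl0, hin.2.1], by linarith only [hl0, hin.2.2]⟩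
  have hsI : ∀ s ∈ Icc (s₀ - l) (s₀ + l), s ∈ Icc (-1 : ℝ) 2 := fun s hs =>
    ⟨hin.2.1.trans hs.1, hs.2.trans hin.2.2⟩
  rcases (P.filter (fun r => (arc 0 G (M ^ m₂) r).Nonempty)).eq_empty_or_nonempty with hE | hE
  · have h0 : ∑ r ∈ P, RN F s₀ l B X (arc 0 G (M ^ m₂) r) = 0 := by
      refine Finset.sum_eq_zero fun r hr => ?_
      have h1 : ¬ (arc 0 G (M ^ m₂) r).Nonempty := fun hne => by
        have h2 : r ∈ P.filter (fun r => (arc 0 G (M ^ m₂) r).Nonempty) :=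
          Finset.mem_filter.2 ⟨hr, hne⟩
        rw [hE] at h2
        exact absurd h2 (Finset.notMem_empty _)
      rw [Finset.not_nonempty_iff_eq_empty.1 h1]
      exact RN_empty5g F s₀ l B X
    rw [h0]
    exact zero_le
  set P' := P.filter (fun r => (arc 0 G (M ^ m₂) r).Nonempty) with hP'
  have hch : ∀ p : ℕ × ℕ, ∃ n' : ℤ × ℤ, p ∈ P' ×ˢ Finset.range J → Pr n' ∧
      Q ≤ 8 * (n'.1 : ℝ) ∧ (n'.1 : ℝ) ≤ 8 * Q ∧
      |sp n' - ctr (J * M ^ m₂) (J * p.1 + p.2)| * (n'.1 : ℝ) ^ 2 ≤ 1 := by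
    intro p
    by_cases hp : p ∈ P' ×ˢ Finset.range J
    · obtain ⟨h1, h2⟩ := Finset.mem_product.1 hp
      have h3 := Finset.mem_range.1 h2
      have h4 := (Finset.mem_filter.1 h1).1
      obtain ⟨ha, n, hn, hnD, hn3, hn4⟩ := hcl' _ h4
      have h5 := ctr_sub5b (n := M ^ m₂) (r := p.1) hone h3
      rw [hcN] at h5
      have h6 := ha n hn hnD
      have h7 : 2 * |ctr (J * M ^ m₂) (J * p.1 + p.2) - ctr (M ^ m₂) p.1| <
          |sp n - ctr (M ^ m₂) p.1| := by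
        refine lt_of_le_of_lt ?_ h6
        have e2 : 24 / n2 = 4 * (6 / n2) := by ring
        have e3 : 0 < 6 / n2 := by positivity
        rw [e2]
        linarith only [h5, e3]
      obtain ⟨n', hn'⟩ := sub_near hD hDQ hn hnD h7 hn3 hn4
      exact ⟨n', fun _ => hn'⟩
    · exact ⟨(0, 0), fun h => absurd h hp⟩
  choose n hn using hch
  -- the facts for one index
  have hfact : ∀ p ∈ P' ×ˢ Finset.range J, (1 : ℝ) ≤ (n p).1 ∧ |sp (n p)| ≤ 7 ∧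
      |ctr (J * M ^ m₂) (J * p.1 + p.2) - sp (n p)| ≤ 64 / Q ^ 2 ∧
      |ctr (J * M ^ m₂) (J * p.1 + p.2) - sp (n p)| ≤ 6144 / n2 := by
    intro p hp
    obtain ⟨hpr, ha, hb, hc⟩ := hn p hp
    obtain ⟨h1, h2⟩ := Finset.mem_product.1 hp
    have h3 := Finset.mem_range.1 h2
    have h4 := Finset.mem_range.1 (hPr (Finset.mem_filter.1 h1).1)
    have h5 : (1 : ℝ) ≤ (n p).1 := by exact_mod_cast hpr.2
    have h6 : J * p.1 + p.2 < J * M ^ m₂ := by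
      calc J * p.1 + p.2 < J * p.1 + J := by omega
        _ = J * (p.1 + 1) := by ring
        _ ≤ J * M ^ m₂ := Nat.mul_le_mul_left _ h4
    have h7 := ctr_le5b h6
    have h8 : |sp (n p) - ctr (J * M ^ m₂) (J * p.1 + p.2)| ≤ 1 := by
      have : (1 : ℝ) ≤ ((n p).1 : ℝ) ^ 2 := one_le_pow₀ h5
      exact (le_mul_of_one_le_right (abs_nonneg _) this).trans hc
    have h9 := near5b (s := sp (n p)) (τ := ctr (J * M ^ m₂) (J * p.1 + p.2)) (c := 1) ha hQ0 hn2Q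
      hn20 (by rw [mul_comm]; exact hc)
    rw [abs_sub_comm (sp (n p))] at h9
    refine ⟨h5, ?_, by simpa using h9.1, by simpa using h9.2⟩
    have h10 : sp (n p) = (sp (n p) - ctr (J * M ^ m₂) (J * p.1 + p.2)) +
        ctr (J * M ^ m₂) (J * p.1 + p.2) := by ring
    rw [h10]
    exact (abs_add_le _ _).trans (by linarith only [h7, h8])
  have hσL : σ ≤ B₀ := by
    obtain ⟨r, hr⟩ := hE
    obtain ⟨k, hk⟩ := (Finset.mem_filter.1 hr).2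
    have h1 := hgd k (arc_sub5b _ _ _ hk)
    have h2 := (cn_pos5b (hSc _ hk)).2.2
    exact h1.1.trans (hF.bd s₀ hs₀ _ (by linarith only [h2])).2.2.2.2.2.2.1
  have hn1b : 12312 ≤ n1 := by
    have h1 : 12312 * B₀ ≤ B₀ * n1 := hT.trans (mul_le_mul_of_nonneg_right hσL (by linarith only [hn1]))
    exact le_of_mul_le_mul_left (by linarith only [h1] : B₀ * 12312 ≤ B₀ * n1) (by linarith only [hB₀])
  have hmain := h F hF (ℕ × ℕ) (P' ×ˢ Finset.range J) I n X (2 * Q) (σ / 2) s₀ l N hX hN hNX hQ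
    (by linarith only [hσ]) (by rw [hβ]; linarith only [hB₀, hM', hM4, hσL]) hin ?_ ?_ ?_
  · -- the conclusion
    have hs1 : ∑ r ∈ P, RN F s₀ l B X (arc 0 G (M ^ m₂) r) =
        ∑ r ∈ P', RN F s₀ l B X (arc 0 G (M ^ m₂) r) := by
      rw [hP', Finset.sum_filter_of_ne]
      intro r _ hne
      by_contra h1
      rw [Finset.not_nonempty_iff_eq_empty.1 h1] at hne
      exact hne (RN_empty5g F s₀ l B X)
    rw [hs1]
    calc ∑ r ∈ P', RN F s₀ l B X (arc 0 G (M ^ m₂) r)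
        ≤ ∑ r ∈ P', ENNReal.ofReal ((J : ℝ) ^ 11) * ∑ j ∈ Finset.range J, RN F s₀ l B X (I (r, j)) :=
          Finset.sum_le_sum fun r _ => arcsub5g (hfib F hF s₀ l X) hGc hJ1 r
      _ = ENNReal.ofReal ((J : ℝ) ^ 11) * ∑ p ∈ P' ×ˢ Finset.range J, RN F s₀ l B X (I p) := by
          rw [← Finset.mul_sum, Finset.sum_product]
      _ ≤ ENNReal.ofReal ((J : ℝ) ^ 11) * ENNReal.ofReal (C * (X * N) ^ ε * (X / (σ / 2 * l)) *
            (2 * Q) ^ (-(10 : ℝ)) * BB N (X * N)) := by gcongr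
      _ = ENNReal.ofReal ((J : ℝ) ^ 11 * (C * (X * N) ^ ε * (X / (σ / 2 * l)) *
            (2 * Q) ^ (-(10 : ℝ)) * BB N (X * N))) := by
          rw [ENNReal.ofReal_mul (p := (J : ℝ) ^ 11) (by positivity)]
      _ ≤ _ := by
          refine ENNReal.ofReal_le_ofReal ?_
          have hBB : 0 ≤ BB N (X * N) := by
            unfold BB
            positivity
          have hKe : 0 ≤ (X * (N : ℝ)) ^ ε := by positivity
          have e1 : (2 * Q) ^ (-(10 : ℝ)) ≤ 1 / Q ^ 10 := by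
            rw [Real.rpow_neg (by positivity), ← one_div]
            rw [show ((10 : ℝ)) = ((10 : ℕ) : ℝ) by norm_num, Real.rpow_natCast]
            refine one_div_le_one_div_of_le (by positivity) ?_
            exact pow_le_pow_left₀ hQ0.le (by linarith only [hQ0]) 10
          have e2 : X / (σ / 2 * l) ≤ 2 * X * n1 ^ 2 := by
            have : X / (σ / 2 * l) = 2 * X * ((1 / σ) * (1 / l)) := by
              field_simp
            rw [this]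
            have h5 : (1 / σ) * (1 / l) ≤ n1 * n1 := mul_le_mul hσn hln (by positivity)
              (by linarith only [hn1b])
            rw [sq]
            exact mul_le_mul_of_nonneg_left h5 (by positivity)
          have e3 : (J : ℝ) ^ 11 ≤ (384 * M) ^ 11 * Q ^ 22 / n2 ^ 11 := by
            rw [le_div_iff₀ (by positivity), ← mul_pow]
            calc ((J : ℝ) * n2) ^ 11 ≤ (384 * M * Q ^ 2) ^ 11 :=
                  pow_le_pow_left₀ (by positivity) hJb 11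
              _ = _ := by ring
          have e4 : 0 ≤ (2 * Q) ^ (-(10 : ℝ)) := by positivity
          calc (J : ℝ) ^ 11 * (C * (X * N) ^ ε * (X / (σ / 2 * l)) * (2 * Q) ^ (-(10 : ℝ)) *
                BB N (X * N))
              ≤ ((384 * M) ^ 11 * Q ^ 22 / n2 ^ 11) * (C * (X * N) ^ ε * (2 * X * n1 ^ 2) *
                (1 / Q ^ 10) * BB N (X * N)) := by (clear * - e3 e2 hC hX hN e1 hQ0 hM hBB hσ hl0; gcongr)
            _ = _ := by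
                field_simp
  · -- first condition
    intro p hp
    obtain ⟨hpr, ha, hb, hc⟩ := hn p hp
    obtain ⟨h1, h2, h3, h4⟩ := hfact p hp
    have hβ16 : 16 ≤ β := by
      rw [hβ]
      linarith only [hB₀, hM', hM4]
    obtain ⟨hp1, hp2⟩ := Finset.mem_product.1 hp
    obtain ⟨k, hk⟩ := (Finset.mem_filter.1 hp1).2
    have h5 := (hgd k (arc_sub5b _ _ _ hk)).1
    have h6 := arc_near5b hone hGc hk
    have h7 := ctr_sub5b (n := M ^ m₂) (r := p.1) hone (Finset.mem_range.1 hp2)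
    rw [hcN] at h6 h7
    have h8 : |tt 0 k - sp (n p)| ≤ 6156 / n2 := by
      have e1 : tt 0 k - sp (n p) = (tt 0 k - ctr (M ^ m₂) p.1) +
          (-(ctr (J * M ^ m₂) (J * p.1 + p.2) - ctr (M ^ m₂) p.1)) +
          (ctr (J * M ^ m₂) (J * p.1 + p.2) - sp (n p)) := by ring
      rw [e1]
      refine (abs_add_three _ _ _).trans ?_
      rw [abs_neg]
      have e2 : 6156 / n2 = 6 / n2 + 6 / n2 + 6144 / n2 := by ring
      rw [e2]
      linarith only [h4, h6, h7]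
    have h9 := (cn_pos5b (hSc _ hk)).2.2
    have h10 : 6156 / n2 ≤ 6156 / n1 := div_le_div_of_nonneg_left (by norm_num) (by linarith only [hn1b]) hn21
    have h11 : 6156 / n1 ≤ 1 := by
      rw [div_le_one (by linarith only [hn1b])]
      linarith only [hn1b]
    have h12 : |sp (n p)| ≤ 3 := by
      have e1 : sp (n p) = tt 0 k + (-(tt 0 k - sp (n p))) := by ring
      rw [e1]
      refine (abs_add_le _ _).trans ?_
      rw [abs_neg]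
      linarith only [h8, h9, h10, h11]
    refine ⟨hpr, ?_, ?_, h12, ?_⟩
    · have h19 := mul_le_mul_of_nonneg_right hβ16 (show (0 : ℝ) ≤ (n p).1 by linarith only [h1])
      linarith only [ha, h19]
    · have h19 := mul_le_mul_of_nonneg_right hβ16 (show (0 : ℝ) ≤ 2 * Q by linarith only [hD, hDQ])
      linarith only [hQ0, hb, h19]
    · intro s hs
      have h13 := (hF.lipJ s₀ hs₀ s (hsI s hs) (tt 0 k) (sp (n p)) (by linarith only [h9])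
        (by linarith only [h12])).1
      have h14 : |s₀ - s| ≤ l := by
        rw [abs_le]
        constructor <;> linarith only [hs.1, hs.2]
      have h15 : B₀ * (|s₀ - s| + |tt 0 k - sp (n p)|) ≤ σ / 2 := by
        have h16 : l ≤ L / n1 := by
          rw [le_div_iff₀ (by linarith only [hn1b])]
          exact hl2
        have h17 : |s₀ - s| + |tt 0 k - sp (n p)| ≤ (L + 6156) / n1 := by
          rw [add_div]
          linarith only [h8, h10, h14, h16]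
        calc B₀ * (|s₀ - s| + |tt 0 k - sp (n p)|) ≤ B₀ * ((L + 6156) / n1) :=
              mul_le_mul_of_nonneg_left h17 (by linarith only [hB₀])
          _ = B₀ * (L + 6156) / n1 := by ring
          _ ≤ σ / 2 := by
              rw [div_le_iff₀ (by linarith only [hn1b])]
              linarith only [hK, hσm]
      have h18 := abs_sub_abs_le_abs_sub (F.J s₀ (tt 0 k)) (F.J s (sp (n p)))
      linarith only [h5, h13, h15, h18]
  · -- second condition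
    intro p hp
    obtain ⟨hpr, ha, hb, hc⟩ := hn p hp
    obtain ⟨h1, h2, h3, h4⟩ := hfact p hp
    refine ⟨cut_mono5b (by rw [hβ]; linarith only [hB₀, hM', hM4])
      ((((cn_cut N).2 _ _ hone0).2 _ _ hone).2 _ _ hJn), hIc p, ?_⟩
    intro k hk
    have h5 := arc_near5b hJn (hSc _) hk
    rw [hJnr] at h5
    have hJn0 : 0 < (J : ℝ) * n2 := by positivity
    have h6 : ((n p).1 : ℝ) ^ 2 ≤ 64 * Q ^ 2 := by
      have e1 := pow_le_pow_left₀ (by linarith only [h1] : (0 : ℝ) ≤ (n p).1) hb 2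
      have e2 : (8 * Q) ^ 2 = 64 * Q ^ 2 := by ring
      linarith only [e1]
    have h7 : ((n p).1 : ℝ) ^ 2 * |tt 0 k - sp (n p)| ≤ 2 := by
      have e1 : tt 0 k - sp (n p) = (tt 0 k - ctr (J * M ^ m₂) (J * p.1 + p.2)) +
            (-(sp (n p) - ctr (J * M ^ m₂) (J * p.1 + p.2))) := by ring
      have e2 : |tt 0 k - sp (n p)| ≤ 6 / (J * n2) +
          |sp (n p) - ctr (J * M ^ m₂) (J * p.1 + p.2)| := by
        rw [e1]
        refine (abs_add_le _ _).trans ?_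
        rw [abs_neg]
        linarith only [h5]
      have e3 : ((n p).1 : ℝ) ^ 2 * (6 / (J * n2)) ≤ 1 := by
        rw [← mul_div_assoc, div_le_one hJn0]
        linarith only [hJa, h6]
      calc ((n p).1 : ℝ) ^ 2 * |tt 0 k - sp (n p)|
          ≤ ((n p).1 : ℝ) ^ 2 * (6 / (J * n2) +
            |sp (n p) - ctr (J * M ^ m₂) (J * p.1 + p.2)|) :=
            mul_le_mul_of_nonneg_left e2 (by positivity)
        _ = ((n p).1 : ℝ) ^ 2 * (6 / (J * n2)) +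
            |sp (n p) - ctr (J * M ^ m₂) (J * p.1 + p.2)| * ((n p).1 : ℝ) ^ 2 := by ring
        _ ≤ 2 := by linarith only [hc, e3]
    refine ⟨h7, ?_⟩
    have h8 := (near5b ha hQ0 hn2Q hn20 h7).2
    have h9 : |tt 0 k - sp (n p)| ^ 4 ≤ (12288 / n2) ^ 4 :=
      pow_le_pow_left₀ (abs_nonneg _) (h8.trans (le_of_eq (by ring))) 4
    calc |tt 0 k - sp (n p)| ^ 4 * (X * N)
        ≤ (12288 / n2) ^ 4 * ((M : ℝ) ^ 4 * n2 ^ 4) := by (clear * - h9 hk3 hX hN hM; gcongr)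
      _ = (12288 * (M : ℝ)) ^ 4 := by
          field_simp
      _ ≤ β := by
          rw [hβ]
          linarith only [hB₀, hM']
  · -- third condition
    intro v
    set T := (P' ×ˢ Finset.range J).filter (fun p => n p = v) with hT
    have hinj : Set.InjOn (fun p : ℕ × ℕ => J * p.1 + p.2) (T : Set (ℕ × ℕ)) := by
      intro p hp q hq hpq
      have hp2 := Finset.mem_range.1 (Finset.mem_product.1 (Finset.mem_filter.1 hp).1).2
      have hq2 := Finset.mem_range.1 (Finset.mem_product.1 (Finset.mem_filter.1 hq).1).2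
      simp only at hpq
      have h1 : p.1 = q.1 := by
        have h2 : (J * p.1 + p.2) / J = (J * q.1 + q.2) / J := by rw [hpq]
        rwa [Nat.mul_add_div (by omega), Nat.mul_add_div (by omega), Nat.div_eq_of_lt hp2,
          Nat.div_eq_of_lt hq2, add_zero, add_zero] at h2
      have h3 : p.2 = q.2 := by
        rw [h1] at hpq
        omega
      exact Prod.ext h1 h3
    rw [← Finset.card_image_of_injOn hinj]
    have h1 := ctr_card5b hJn (T.image (fun p : ℕ × ℕ => J * p.1 + p.2)) (sp v) (64 / Q ^ 2)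
      (by positivity) ?_
    · refine h1.trans ?_
      rw [hJnr]
      have e1 : 64 / Q ^ 2 * (J * n2) / 6 ≤ 4096 * M := by
        have e2 : 64 / Q ^ 2 * (J * n2) / 6 ≤ 64 / Q ^ 2 * (384 * M * Q ^ 2) / 6 := by (clear * - hJb hQ0; gcongr)
        refine e2.trans (le_of_eq ?_)
        field_simp
        ring
      rw [hβ]
      linarith only [hB₀, hM', hM4, e1]
    · intro i hi
      obtain ⟨p, hp, rfl⟩ := Finset.mem_image.1 hi
      obtain ⟨hp1, hp2⟩ := Finset.mem_filter.1 hp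
      rw [← hp2]
      exact (hfact p hp1).2.2.1

theorem class_IIG5 {η ε₀ B₀ B L : ℝ} {M : ℕ} (hη : 0 < η) (hε₀ : 0 < ε₀) (hB₀ : 1 ≤ B₀)
    (hL : 1 ≤ L) (hM : 2 ≤ M)
    (hsec : ∀ η : ℝ, 0 < η → ∃ C : ℝ, 1 ≤ C ∧ ∀ (F : Fam), F.Ok B₀ →
      ∀ (X : ℝ) (N : ℕ) (W D τ s₀ l : ℝ) (S : Finset (ℤ × ℤ)), 1 ≤ X → 1 ≤ N →
      (N : ℝ) ≤ X → 0 ≤ W → W ≤ 2 → 1 ≤ D → In s₀ l → S ⊆ cn N → (∀ k ∈ S, |tt 0 k - τ| ≤ W) →
      (∀ k ∈ S, D * (Int.gcd k.1 k.2 : ℝ) ≤ k.1) →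
        RN F s₀ l B X S ≤ ENNReal.ofReal (C * X ^ (1 + η) * (N ^ 2 * W + N / D) ^ 7 *
          (N ^ 2 * W + (N / D) ^ 2) ^ 2 * (1 + N ^ 3 / X)))
    (hr2 : ∀ ε β : ℝ, 0 < ε → 1 ≤ β → ∃ C : ℝ, 1 ≤ C ∧ ∀ (F : Fam), F.Ok B₀ →
      ∀ (ι : Type) (P : Finset ι) (I : ι → Finset (ℤ × ℤ)) (n : ι → ℤ × ℤ) (X U σ s₀ l : ℝ)
        (N : ℕ), 1 ≤ X → 1 ≤ N → (N : ℝ) ≤ X → 1 ≤ U → 0 < σ → σ ≤ β → In s₀ l →
        (∀ p ∈ P, Pr (n p) ∧ U ≤ β * (n p).1 ∧ ((n p).1 : ℝ) ≤ β * U ∧ |sp (n p)| ≤ 3 ∧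
          ∀ s ∈ Icc (s₀ - l) (s₀ + l), σ ≤ |F.J s (sp (n p))|) →
        (∀ p ∈ P, Cut β (I p) ∧ I p ⊆ cn N ∧ ∀ k ∈ I p, ((n p).1 : ℝ) ^ 2 * |tt 0 k - sp (n p)| ≤ 2 ∧
          |tt 0 k - sp (n p)| ^ 4 * (X * N) ≤ β) →
        (∀ v : ℤ × ℤ, ((P.filter (fun p => n p = v)).card : ℝ) ≤ β) →
          ∑ p ∈ P, RN F s₀ l B X (I p) ≤
            ENNReal.ofReal (C * (X * N) ^ ε * (X / (σ * l)) * U ^ (-(10 : ℝ)) * BB N (X * N)))
    (hfib : ∀ (F : Fam), F.Ok B₀ → ∀ (s₀ l X : ℝ) (S : Finset (ℤ × ℤ)) (g : ℤ × ℤ → ℕ)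
      (P : Finset ℕ), (∀ k ∈ S, g k ∈ P) →
      RN F s₀ l B X S ≤ ENNReal.ofReal ((P.card : ℝ) ^ 11) *
        ∑ i ∈ P, RN F s₀ l B X (S.filter (fun k => g k = i))) :
    ∃ C : ℝ, 1 ≤ C ∧ ∀ (F : Fam), F.Ok B₀ → ∀ (X σ s₀ l D Q : ℝ) (N m₀ m₂ r₀ : ℕ) (P : Finset ℕ),
      ParG F M ε₀ L X σ s₀ l N m₀ m₂ r₀ → X * N < (M : ℝ) ^ (4 * m₂ + 4) → 1 ≤ D →
      24 * D ^ 2 = (M : ℝ) ^ m₂ → D ≤ 2 * Q → P ⊆ Finset.range (M ^ m₂) →
      (∀ r ∈ P, |ctr (M ^ m₂) r - ctr (M ^ m₀) r₀| ≤ 12 / (M ^ m₀ : ℕ) ∧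
        (∀ n : ℤ × ℤ, Pr n → (n.1 : ℝ) ≤ D → 24 / (M ^ m₂ : ℕ) < |sp n - ctr (M ^ m₂) r|) ∧
        ∃ n : ℤ × ℤ, Pr n ∧ (n.1 : ℝ) ≤ D ∧ Q * ((n.1 : ℝ) * |sp n - ctr (M ^ m₂) r|) ≤ 1 ∧
          1 ≤ 2 * Q * ((n.1 : ℝ) * |sp n - ctr (M ^ m₂) r|)) →
        SG F s₀ l B X (arc 0 (cn N) (M ^ m₀) r₀) (M ^ m₂) P ≤
          ENNReal.ofReal (C * X ^ η * FR X N) := by
  classical
  have hM' : (2 : ℝ) ≤ M := by exact_mod_cast hM
  obtain ⟨C₃, hC₃, hsec'⟩ := hsec (η / 2) (by positivity)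
  obtain ⟨C₁, hC₁, hcnt'⟩ := count_II
  obtain ⟨Cb, hCb, hbeta⟩ := betaG5 (ε := η / 4) (ε₀ := ε₀) (B := B) (L := L) hM hB₀ hL
    (fun β hβ => hr2 (η / 4) β (by positivity) hβ) hfib
  have hM4 : 1 ≤ (M : ℝ) ^ 4 := one_le_pow₀ (by linarith only [hM'])
  obtain ⟨C₅, hC₅, hnum'⟩ := num_bds hM4
  set K₀ : ℝ := (2 * B₀ * (L + 6156)) ^ (1 / ε₀) with hK₀
  have hT1 : 1 ≤ 2 * B₀ * (L + 6156) := by nlinarith only [hB₀, hL]
  have hK₀1 : 1 ≤ K₀ := Real.one_le_rpow hT1 (by positivity)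
  set c₀ : ℝ := K₀ ^ 6 * (C₃ * K₀ ^ (1 + η / 2) * (54 * K₀ ^ 2) ^ 9 * (1 + K₀ ^ 3)) with hc₀
  set c₁ : ℝ := (4 * C₁) ^ 6 * 24 ^ 3 * C₃ * 54 ^ 9 with hc₁
  set c₂ : ℝ := (2 * C₁) ^ 6 * C₃ * 54 ^ 9 with hc₂
  set c₃ : ℝ := (2 * C₁) ^ 5 * Cb with hc₃
  set cL : ℝ := (1 + 48 / η) ^ 6 with hcL
  have hc₀0 : 0 ≤ c₀ := by positivity
  have hc₁0 : 0 ≤ c₁ := by positivity
  have hc₂0 : 0 ≤ c₂ := by positivity
  have hc₃0 : 0 ≤ c₃ := by positivity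
  have hcL0 : 0 ≤ cL := by positivity
  refine ⟨C₅ * (c₀ + cL * c₁ + cL * c₂ + cL * c₃ + 1), ?_, ?_⟩
  · have h1 : 1 ≤ c₀ + cL * c₁ + cL * c₂ + cL * c₃ + 1 := by
      have := mul_nonneg hcL0 hc₁0
      have := mul_nonneg hcL0 hc₂0
      have := mul_nonneg hcL0 hc₃0
      linarith
    exact one_le_mul_of_one_le_of_one_le hC₅ h1
  intro F hF X σ s₀ l D Q N m₀ m₂ r₀ P hP hk2 hD hDn hDQ hPr hcl
  have hX := hP.X1
  have hN := hP.N1
  have hNr : (1 : ℝ) ≤ N := by exact_mod_cast hN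
  have hX0 : 0 < X := by linarith only [hX]
  have hXK : X ≤ X * N := le_mul_of_one_le_right hX0.le hNr
  have hNK : (N : ℝ) ≤ X * N := le_mul_of_one_le_left (by linarith only [hNr]) hX
  have hK1 : 1 ≤ X * N := hX.trans hXK
  have hNX : (N : ℝ) ≤ X := by
    refine hP.hi.trans ?_
    calc X ^ (4 / 9 + 1 / 1000 : ℝ) ≤ X ^ (1 : ℝ) :=
          Real.rpow_le_rpow_of_exponent_le hX (by norm_num)
      _ = X := Real.rpow_one X
  have hKX : X * N ≤ X ^ 2 := by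
    rw [sq]
    exact mul_le_mul_of_nonneg_left hNX hX0.le
  have hn21 : (M : ℝ) ^ m₀ ≤ (M : ℝ) ^ m₂ := pow_le_pow_right₀ (by linarith only [hM']) hP.m
  have hn1 : (1 : ℝ) ≤ (M : ℝ) ^ m₀ := one_le_pow₀ (by linarith only [hM'])
  have hk1 : ((M : ℝ) ^ m₂) ^ 4 ≤ X * N := by
    have h1 := hP.k1
    rwa [mul_comm 4 m₂, pow_mul] at h1
  have hk3 : X * N < (M : ℝ) ^ 4 * ((M : ℝ) ^ m₂) ^ 4 := by
    have h1 := hk2
    have e1 : (M : ℝ) ^ (4 * m₂ + 4) = (M : ℝ) ^ 4 * ((M : ℝ) ^ m₂) ^ 4 := by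
      rw [pow_add, mul_comm 4 m₂, pow_mul, mul_comm]
    rwa [e1] at h1
  have hcN : ((M ^ m₂ : ℕ) : ℝ) = (M : ℝ) ^ m₂ := by push_cast; rfl
  have hcN0 : ((M ^ m₀ : ℕ) : ℝ) = (M : ℝ) ^ m₀ := by push_cast; rfl
  have hone : 1 ≤ M ^ m₂ := Nat.one_le_pow _ _ (by omega)
  have hone0 : 1 ≤ M ^ m₀ := Nat.one_le_pow _ _ (by omega)
  have hcnt2 : (P.card : ℝ) ≤ C₁ * (1 + log D) * ((M : ℝ) ^ m₂ / Q +
      (1 / (M : ℝ) ^ m₀) * ((M : ℝ) ^ m₂ / Q) ^ 2) := by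
    have h1 := hcnt' (M ^ m₀) (M ^ m₂) r₀ D Q hone0 (Nat.pow_le_pow_right (by omega) hP.m) hD hDQ
    rw [hcN, hcN0] at h1
    refine le_trans ?_ h1
    exact_mod_cast Finset.card_le_card fun r hr => by
      obtain ⟨ha, hb, n, hn, hnD, h3, h4⟩ := hcl r hr
      exact Finset.mem_filter.2 ⟨hPr hr, ha, n, hn, hnD, (hb n hn hnD).le, h3, h4⟩
  have hcl2 : ∀ r ∈ P, ∀ n : ℤ × ℤ, Pr n → (n.1 : ℝ) ≤ D →
      24 / (M : ℝ) ^ m₂ < |sp n - ctr (M ^ m₂) r| := fun r hr => by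
    rw [← hcN]
    exact (hcl r hr).2.1
  set G := arc 0 (cn N) (M ^ m₀) r₀ with hG
  have hGc : G ⊆ cn N := arc_sub5b _ _ _
  have hSc : ∀ r, arc 0 G (M ^ m₂) r ⊆ cn N := fun r => (arc_sub5b _ _ _).trans hGc
  have hnear : ∀ r, ∀ k ∈ arc 0 G (M ^ m₂) r, |tt 0 k - ctr (M ^ m₂) r| ≤ 6 / (M : ℝ) ^ m₂ :=
    fun r k hk => by
      have := arc_near5b hone hGc hk
      rwa [hcN] at this
  have hbeta' := hbeta F hF X σ s₀ l D Q N m₀ m₂ r₀ P hP hk2 hD hDn hDQ hPr hNX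
  have hpn : (P.card : ℝ) ≤ (M : ℝ) ^ m₂ := by
    have h1 := Finset.card_le_card hPr
    rw [Finset.card_range] at h1
    rw [← hcN]
    exact_mod_cast h1
  set n2 : ℝ := (M : ℝ) ^ m₂ with hn2
  set n1 : ℝ := (M : ℝ) ^ m₀ with hn1'
  set p : ℝ := (P.card : ℝ) with hp
  have hp0 : 0 ≤ p := Nat.cast_nonneg _
  have hn24 : 24 ≤ n2 := by
    have := one_le_pow₀ hD (n := 2)
    linarith only [hDn, this]
  have hn20 : 0 < n2 := by linarith only [hn24]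
  have hn10 : 0 < n1 := by linarith only [hn1]
  have hQ : 1 ≤ 2 * Q := hD.trans hDQ
  have hQ0 : 0 < Q := by linarith only [hD, hDQ]
  have hD0 : 0 < D := by linarith only [hD]
  have hn2K : n2 ≤ X * N := by
    have h1 : n2 ≤ n2 ^ 4 := by
      calc n2 = n2 ^ 1 := (pow_one _).symm
        _ ≤ n2 ^ 4 := pow_le_pow_right₀ (by linarith only [hn24]) (by norm_num)
    exact h1.trans hk1
  have hDX : D ≤ X ^ 2 := by
    have h1 : D ≤ D ^ 2 := le_self_pow₀ hD two_ne_zero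
    linarith only [hKX, hDn, hn24, hn2K, h1, sq_nonneg D]
  set LL := 1 + log D with hLL
  have hLL1 : 1 ≤ LL := by
    have := Real.log_nonneg hD
    linarith only [this]
  have hLLb : LL ^ 6 ≤ cL * X ^ (η / 4) := log5b hη hX hD hDX
  obtain ⟨w, hw⟩ : ∃ w : ℝ, w = 1 / n2 := ⟨_, rfl⟩
  have hw0 : 0 < w := by rw [hw]; positivity
  have hw4 : w ^ 4 * (X * N) = X * N / n2 ^ 4 := by
    rw [hw]
    field_simp
  obtain ⟨-, -, hA, hBm, hCc, hF1⟩ := hnum' X N w Q hX hNr hP.hi hQ0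
    (by
      rw [hw4]
      have : 1 ≤ X * N / n2 ^ 4 := by
        rw [le_div_iff₀ (by positivity)]
        linarith only [hk1]
      exact one_le_mul_of_one_le_of_one_le hM4 this)
    (by
      rw [hw4, div_le_iff₀ (by positivity)]
      exact hk3.le) hw0
    (by
      have : w ≤ 1 := by
        rw [hw, div_le_one hn20]
        linarith only [hn24]
      linarith only [hM4, this])
  set Fv := FR X N with hFdef
  have hF0 : 0 ≤ C₅ * Fv := by linarith only [hF1]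
  have hXη : 1 ≤ X ^ η := Real.one_le_rpow hX hη.le
  have hp6 : p ^ 6 ≤ C₅ * Fv := by
    refine le_trans ?_ (hCc hP.lo)
    calc p ^ 6 ≤ n2 ^ 6 := pow_le_pow_left₀ hp0 hpn 6
      _ = (n2 ^ 4) ^ (3 / 2 : ℝ) := by
          rw [← Real.rpow_natCast n2 4, ← Real.rpow_mul hn20.le, ← Real.rpow_natCast n2 6]
          congr 1
          norm_num
      _ ≤ (X * N) ^ (3 / 2 : ℝ) := Real.rpow_le_rpow (by positivity) hk1 (by norm_num)
  have hgoal : ∀ V c : ℝ, 0 ≤ V → ∑ r ∈ P, RN F s₀ l B X (arc 0 G (M ^ m₂) r) ≤ ENNReal.ofReal V →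
      c ≤ c₀ + cL * c₁ + cL * c₂ + cL * c₃ → p ^ 5 * V ≤ c * X ^ η * (C₅ * Fv) →
      SG F s₀ l B X G (M ^ m₂) P ≤
        ENNReal.ofReal (C₅ * (c₀ + cL * c₁ + cL * c₂ + cL * c₃ + 1) * X ^ η * Fv) := by
    intro V c hV h1 hc h2
    refine (fin5g hV h1).trans (ENNReal.ofReal_le_ofReal ?_)
    have h3 : 0 ≤ X ^ η * (C₅ * Fv) := by positivity
    have h4 : c * X ^ η * (C₅ * Fv) ≤
        (c₀ + cL * c₁ + cL * c₂ + cL * c₃) * (X ^ η * (C₅ * Fv)) := by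
      rw [mul_assoc]
      exact mul_le_mul_of_nonneg_right hc h3
    have h5 : p ^ 6 ≤ X ^ η * (C₅ * Fv) := hp6.trans (le_mul_of_one_le_left hF0 hXη)
    calc p ^ 5 * V + p ^ 6 ≤ (c₀ + cL * c₁ + cL * c₂ + cL * c₃) * (X ^ η * (C₅ * Fv)) +
          X ^ η * (C₅ * Fv) := by linarith only [h2, h4, h5]
      _ = _ := by ring
  obtain ⟨Z, hZ⟩ : ∃ Z : ℝ, Z = 1 + (N : ℝ) ^ 3 / X := ⟨_, rfl⟩
  have hZ0 : 0 ≤ Z := by rw [hZ]; positivity
  obtain ⟨Rb, hRb⟩ : ∃ Rb : ℝ, Rb = C₃ * X ^ (1 + η / 2) * (54 * ((N : ℝ) ^ 2 / n2)) ^ 9 * Z :=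
    ⟨_, rfl⟩
  have hRb0 : 0 ≤ Rb := by rw [hRb]; positivity
  have hsum : ∑ r ∈ P, RN F s₀ l B X (arc 0 G (M ^ m₂) r) ≤ ENNReal.ofReal (p * Rb) := by
    have h1 : ∀ r ∈ P, RN F s₀ l B X (arc 0 G (M ^ m₂) r) ≤ ENNReal.ofReal Rb := fun r hr => by
      rw [hRb, hZ]
      exact sect5g hC₃ (fun X N W D τ S h1 h2 h3 h4 h5 h6 h7 h8 h9 =>
        hsec' F hF X N W D τ s₀ l S h1 h2 h3 h4 h5 h6 hP.inn h7 h8 h9)
        hX hN hNX hD hDn (hSc r) (hnear r) (hcl2 r hr)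
    refine (Finset.sum_le_card_nsmul P _ _ h1).trans (le_of_eq ?_)
    rw [nsmul_eq_mul, ENNReal.ofReal_mul hp0, hp, ENNReal.ofReal_natCast]
  have hX1 : X ^ (1 + η / 2) = X * X ^ (η / 2) := by
    rw [Real.rpow_add hX0, Real.rpow_one]
  have hX2 : X ^ (η / 4) * X ^ (η / 2) ≤ X ^ η := by
    rw [← Real.rpow_add hX0]
    exact Real.rpow_le_rpow_of_exponent_le hX (by linarith only [hη])
  have hcomb : ∀ c T : ℝ, 0 ≤ c → T ≤ C₅ * Fv → c * LL ^ 6 * X ^ (η / 2) * T ≤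
      (cL * c) * X ^ η * (C₅ * Fv) := by
    intro c T hc hT
    calc c * LL ^ 6 * X ^ (η / 2) * T ≤ c * LL ^ 6 * X ^ (η / 2) * (C₅ * Fv) :=
          mul_le_mul_of_nonneg_left hT (by positivity)
      _ ≤ c * (cL * X ^ (η / 4)) * X ^ (η / 2) * (C₅ * Fv) := by (clear * - hLLb hc hX hF1; gcongr)
      _ = (cL * c) * (X ^ (η / 4) * X ^ (η / 2)) * (C₅ * Fv) := by ring
      _ ≤ _ := by (clear * - hX2 hη hc hF1; gcongr)
  have hcc1 := mul_nonneg hcL0 hc₁0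
  have hcc2 := mul_nonneg hcL0 hc₂0
  have hcc3 := mul_nonneg hcL0 hc₃0
  rcases lt_or_ge ((X * (N : ℝ)) ^ ε₀) (2 * B₀ * (L + 6156)) with hKs | hKb
  · -- bounded parameters
    have hKK : X * N ≤ K₀ := by
      have h1 : X * N = ((X * (N : ℝ)) ^ ε₀) ^ (1 / ε₀) := by
        rw [← Real.rpow_mul (by linarith only [hn24, hn2K]), mul_one_div_cancel hε₀.ne', Real.rpow_one]
      rw [h1, hK₀]
      exact Real.rpow_le_rpow (by positivity) hKs.le (by positivity)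
    refine hgoal (p * Rb) c₀ (by (clear * - hRb0; positivity)) hsum (by linarith only [hcc1, hcc3]) ?_
    have h1 : p ≤ K₀ := hpn.trans (hn2K.trans hKK)
    have h2 : X ≤ K₀ := hXK.trans hKK
    have h3 : (N : ℝ) ≤ K₀ := hNK.trans hKK
    have h4 : (N : ℝ) ^ 2 / n2 ≤ K₀ ^ 2 := by
      rw [div_le_iff₀ hn20]
      have : (N : ℝ) ^ 2 ≤ K₀ ^ 2 := pow_le_pow_left₀ (by linarith only [hNr]) h3 2
      exact this.trans (le_mul_of_one_le_right (by positivity) (by linarith only [hn24]))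
    have h5 : Z ≤ 1 + K₀ ^ 3 := by
      rw [hZ]
      have h6 : (N : ℝ) ^ 3 / X ≤ N ^ 3 := div_le_self (by positivity) hX
      have h7 : (N : ℝ) ^ 3 ≤ K₀ ^ 3 := pow_le_pow_left₀ (by linarith only [hNr]) h3 3
      linarith only [h6, h7]
    have h6 : Rb ≤ C₃ * K₀ ^ (1 + η / 2) * (54 * K₀ ^ 2) ^ 9 * (1 + K₀ ^ 3) := by
      rw [hRb]
      (clear * - hX h2 hη hC₃ hN hM h4 hB₀ hL h5 hZ0; gcongr)
    calc p ^ 5 * (p * Rb) = p ^ 6 * Rb := by ring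
      _ ≤ K₀ ^ 6 * (C₃ * K₀ ^ (1 + η / 2) * (54 * K₀ ^ 2) ^ 9 * (1 + K₀ ^ 3)) := by (clear * - h1 h6 hRb0 hB₀ hL; gcongr)
      _ = c₀ * 1 * 1 := by rw [hc₀]; ring
      _ ≤ c₀ * X ^ η * (C₅ * Fv) := by (clear * - hXη hB₀ hL hC₃ hF1 hX; gcongr)
  rcases le_or_gt (n2 / Q) n1 with hc | hc
  · -- few arcs
    refine hgoal (p * Rb) (cL * c₁) (by (clear * - hRb0; positivity)) hsum (by linarith only [hc₀0, hcc1, hcc3]) ?_
    refine le_trans ?_ (hcomb c₁ _ hc₁0 hA)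
    have h1 : (1 / n1) * (n2 / Q) ^ 2 ≤ n2 / Q := by
      have h2 : (1 / n1) * (n2 / Q) ≤ 1 := by
        rw [one_div, inv_mul_le_iff₀ hn10, mul_one]
        exact hc
      calc (1 / n1) * (n2 / Q) ^ 2 = ((1 / n1) * (n2 / Q)) * (n2 / Q) := by ring
        _ ≤ 1 * (n2 / Q) := mul_le_mul_of_nonneg_right h2 (by positivity)
        _ = n2 / Q := one_mul _
    have h2 : n2 / Q ≤ 2 * (n2 / D) := by
      rw [← mul_div_assoc, div_le_div_iff₀ hQ0 hD0]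
      have := mul_le_mul_of_nonneg_left hDQ hn20.le
      linarith only [this]
    have h3 : p ≤ 4 * C₁ * LL * (n2 / D) := by
      have h4 : 0 ≤ C₁ * LL := by positivity
      have h5 : n2 / Q + 1 / n1 * (n2 / Q) ^ 2 ≤ 4 * (n2 / D) := by linarith only [h1, h2]
      calc p ≤ C₁ * LL * (n2 / Q + 1 / n1 * (n2 / Q) ^ 2) := hcnt2
        _ ≤ C₁ * LL * (4 * (n2 / D)) := mul_le_mul_of_nonneg_left h5 h4
        _ = _ := by ring
    have h4 : (n2 / D) ^ 2 = 24 * n2 := by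
      rw [div_pow, div_eq_iff (by positivity), ← hDn]
      ring
    calc p ^ 5 * (p * Rb) = p ^ 6 * Rb := by ring
      _ ≤ (4 * C₁ * LL * (n2 / D)) ^ 6 * Rb := by (clear * - h3 hRb0; gcongr)
      _ = (4 * C₁) ^ 6 * LL ^ 6 * ((n2 / D) ^ 2) ^ 3 * Rb := by ring
      _ = (4 * C₁) ^ 6 * LL ^ 6 * (24 * n2) ^ 3 * Rb := by rw [h4]
      _ = c₁ * LL ^ 6 * X ^ (η / 2) * (X * (w ^ 6 * N ^ 18 * Z)) := by
          rw [hRb, hX1, hc₁, hw]
          field_simp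
      _ = _ := by rw [hZ]
  · -- many arcs
    have h1 : n2 / Q ≤ (1 / n1) * (n2 / Q) ^ 2 := by
      have h2 : 1 ≤ (1 / n1) * (n2 / Q) := by
        rw [one_div, inv_mul_eq_div, le_div_iff₀ hn10, one_mul]
        exact hc.le
      calc n2 / Q = 1 * (n2 / Q) := (one_mul _).symm
        _ ≤ ((1 / n1) * (n2 / Q)) * (n2 / Q) := mul_le_mul_of_nonneg_right h2 (by positivity)
        _ = (1 / n1) * (n2 / Q) ^ 2 := by ring
    have h3 : p ≤ 2 * C₁ * LL * ((n2 / Q) ^ 2 / n1) := by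
      have h4 : 0 ≤ C₁ * LL := by positivity
      have h5 : n2 / Q + 1 / n1 * (n2 / Q) ^ 2 ≤ 2 * ((n2 / Q) ^ 2 / n1) := by
        have : (n2 / Q) ^ 2 / n1 = 1 / n1 * (n2 / Q) ^ 2 := by ring
        rw [this]
        linarith only [h1]
      calc p ≤ C₁ * LL * (n2 / Q + 1 / n1 * (n2 / Q) ^ 2) := hcnt2
        _ ≤ C₁ * LL * (2 * ((n2 / Q) ^ 2 / n1)) := mul_le_mul_of_nonneg_left h5 h4
        _ = _ := by ring
    have h3' : p ≤ 2 * C₁ * LL * (n2 / Q) ^ 2 := by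
      refine h3.trans ?_
      have h4 : 0 ≤ 2 * C₁ * LL := by positivity
      exact mul_le_mul_of_nonneg_left (div_le_self (by positivity) hn1) h4
    rcases le_total (w * Q ^ 2 * BB N (X * N)) ((N : ℝ) ^ 18 * (1 + N ^ 3 / X) / (Q ^ 12 * w ^ 3))
      with hmin | hmin
    · rw [min_eq_left hmin] at hBm
      have hBB : 0 ≤ BB N (X * N) := by
        unfold BB
        positivity
      refine hgoal _ (cL * c₃) ?_ (hbeta' hKb fun r hr => (hcl r hr).2) (by linarith only [hc₀0, hcc1]) ?_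
      · (clear * - hCb hX hN hM hQ0 hBB; positivity)
      refine le_trans ?_ (hcomb c₃ _ hc₃0 hBm)
      have h5 : (X * (N : ℝ)) ^ (η / 4) ≤ X ^ (η / 2) := by
        calc (X * (N : ℝ)) ^ (η / 4) ≤ (X ^ 2) ^ (η / 4) :=
              Real.rpow_le_rpow (by linarith only [hn24, hn2K]) hKX (by positivity)
          _ = X ^ (η / 2) := by
              rw [← Real.rpow_natCast, ← Real.rpow_mul hX0.le]
              congr 1
              push_cast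
              ring
      have h6 : LL ^ 5 ≤ LL ^ 6 := pow_le_pow_right₀ hLL1 (by norm_num)
      have h7 : 1 / n1 ^ 3 ≤ 1 := by
        rw [div_le_one (by positivity)]
        exact one_le_pow₀ hn1
      calc p ^ 5 * (Cb * (X * N) ^ (η / 4) * X * n1 ^ 2 * Q ^ 12 / n2 ^ 11 * BB N (X * N))
          ≤ (2 * C₁ * LL * ((n2 / Q) ^ 2 / n1)) ^ 5 *
            (Cb * (X * N) ^ (η / 4) * X * n1 ^ 2 * Q ^ 12 / n2 ^ 11 * BB N (X * N)) := by (clear * - h3 hCb hX hN hM hQ0 hBB; gcongr)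
        _ = (2 * C₁) ^ 5 * Cb * LL ^ 5 * (X * N) ^ (η / 4) * (X * (1 / n2 * Q ^ 2 *
            BB N (X * N))) * (1 / n1 ^ 3) := by
            field_simp
        _ ≤ (2 * C₁) ^ 5 * Cb * LL ^ 6 * X ^ (η / 2) * (X * (1 / n2 * Q ^ 2 *
            BB N (X * N))) * 1 := by (clear * - h6 hC₁ hCb h5 hX hN hLL1 hM hQ0 hBB h7; gcongr)
        _ = _ := by rw [hc₃, hw, mul_one]
    · rw [min_eq_right hmin] at hBm
      refine hgoal (p * Rb) (cL * c₂) (by (clear * - hRb0; positivity)) hsum (by linarith only [hc₀0, hcc1, hcc3]) ?_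
      refine le_trans ?_ (hcomb c₂ _ hc₂0 hBm)
      calc p ^ 5 * (p * Rb) = p ^ 6 * Rb := by ring
        _ ≤ (2 * C₁ * LL * (n2 / Q) ^ 2) ^ 6 * Rb := by (clear * - h3' hRb0; gcongr)
        _ = c₂ * LL ^ 6 * X ^ (η / 2) * (X * (N ^ 18 * Z / (Q ^ 12 * w ^ 3))) := by
            rw [hRb, hX1, hc₂, hw]
            field_simp
        _ = _ := by rw [hZ]

end Pool.Agent.Helper60.GM
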