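import Pool.Agent.Helper5.GM.IIG
import Pool.Agent.Helper24.GM.R2
import Pool.Agent.Helper47.GM.Q3
import Pool.Agent.Helper58.GM.B

/-!
# Project GM, block E1b (`class_IIG`): the arcs of type II, case A
-/

open MeasureTheory Real Set Filter Topology

set_option autoImplicit false

namespace Pool.Agent.Helper60.GM

open Pool.Agent.Helper22.AE
open Pool.Agent.Helper92.GC (dt tp Tq uu tt arc dd sqa m6)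
open Pool.Agent.Helper92.DT (m12 IsMul12)
open Pool.Agent.Helper60.LT (Fr Tf xf yf df vf fr ac co Cut BB PP)
open Pool.Agent.Helper60.QL (nm Cone)
open Pool.Agent.Helper60.RT (R2 cn FR sp Pr prs ctr lf2 ln2 Dec12)

/-- case A, type II -/
theorem class_IIG {η ε₀ B₀ B L : ℝ} {M : ℕ} (hη : 0 < η) (hε₀ : 0 < ε₀) (hB₀ : 1 ≤ B₀) (hB : 1 ≤ B) (hL : 1 ≤ L) (hM : 2 ≤ M) : ∃ C : ℝ, 1 ≤ C ∧
    ∀ (F : Fam), F.Ok B₀ → ∀ (X σ s₀ l D Q : ℝ) (N m₀ m₂ r₀ : ℕ) (P : Finset ℕ), ParG F M ε₀ L X σ s₀ l N m₀ m₂ r₀ → X * N < (M : ℝ) ^ (4 * m₂ + 4) → 1 ≤ D → 24 * D ^ 2 = (M : ℝ) ^ m₂ → D ≤ 2 * Q → P ⊆ Finset.range (M ^ m₂) →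
      (∀ r ∈ P, |ctr (M ^ m₂) r - ctr (M ^ m₀) r₀| ≤ 12 / (M ^ m₀ : ℕ) ∧ (∀ n : ℤ × ℤ, Pr n → (n.1 : ℝ) ≤ D → 24 / (M ^ m₂ : ℕ) < |sp n - ctr (M ^ m₂) r|) ∧
        ∃ n : ℤ × ℤ, Pr n ∧ (n.1 : ℝ) ≤ D ∧ Q * ((n.1 : ℝ) * |sp n - ctr (M ^ m₂) r|) ≤ 1 ∧ 1 ≤ 2 * Q * ((n.1 : ℝ) * |sp n - ctr (M ^ m₂) r|)) →
        SG F s₀ l B X (arc 0 (cn N) (M ^ m₀) r₀) (M ^ m₂) P ≤ ENNReal.ofReal (C * X ^ η * FR X N) :=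
  class_IIG5 hη hε₀ hB₀ hL hM (fun η hη => sec_bdG hη hB₀ hB)
    (fun ε β hε hβ => r2G hε hB₀ hB hβ)
    (fun F hF s₀ l X S g P hP => RN_fib hF s₀ l B X S g P hP)

end Pool.Agent.Helper60.GM
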